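import Mathlib

/-!
# A finite criterion of Faltings type

`Γ` compact group, `D` a finite-dimensional algebra over `ℚ_p`, `R : Γ → D` multiplicative and
continuous. A linear functional vanishing on `R s` for all `s` in a set which meets all cosets of
all open normal subgroups of small index vanishes on the whole image of `R`.
-/

namespace Pool.Agent.FC

open Topology

variable {p : ℕ} [Fact p.Prime]

/-- a finitely generated `ℤ_p`-submodule of `ℚ_p ^ m` needs at most `m` generators -/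
theorem exists_gens {m : ℕ} (X : Submodule ℤ_[p] (Fin m → ℚ_[p])) (k : ℕ)
    (hX : ∀ x ∈ X, ∀ i, ‖(p : ℚ_[p]) ^ k * x i‖ ≤ 1) :
    ∃ (r : ℕ) (x : Fin r → (Fin m → ℚ_[p])), r ≤ m ∧ X = Submodule.span ℤ_[p] (Set.range x) := by
  have hp0 : (p : ℚ_[p]) ^ k ≠ 0 := pow_ne_zero _ (by exact_mod_cast (Fact.out : p.Prime).ne_zero)
  -- the embedding of `ℤ_p ^ m`
  let j : (Fin m → ℤ_[p]) →ₗ[ℤ_[p]] (Fin m → ℚ_[p]) :=
    { toFun := fun y i => ((p : ℚ_[p]) ^ k)⁻¹ * (y i : ℚ_[p])
      map_add' := by intro y z; ext i; simp [mul_add]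
      map_smul' := by
        intro c y; ext i
        simp only [Pi.smul_apply, smul_eq_mul, PadicInt.coe_mul, RingHom.id_apply]
        rw [Algebra.smul_def]
        show _ = (c : ℚ_[p]) * _
        ring }
  have hj : Function.Injective j := by
    intro y z h
    ext i
    have h1 := congrFun h i
    have h2 : ((p : ℚ_[p]) ^ k)⁻¹ * (y i : ℚ_[p]) = ((p : ℚ_[p]) ^ k)⁻¹ * (z i : ℚ_[p]) := h1
    have h3 := mul_left_cancel₀ (inv_ne_zero hp0) h2
    exact Subtype.ext h3
  have hXj : X ≤ LinearMap.range j := by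
    intro x hx
    refine ⟨fun i => ⟨(p : ℚ_[p]) ^ k * x i, hX x hx i⟩, ?_⟩
    ext i
    show ((p : ℚ_[p]) ^ k)⁻¹ * ((p : ℚ_[p]) ^ k * x i) = x i
    field_simp
  obtain ⟨r, hr⟩ := Submodule.nonempty_basis_of_pid (Pi.basisFun ℤ_[p] (Fin m)) (X.comap j)
  obtain ⟨b⟩ := hr
  have hrm : r ≤ m := by
    have h1 := b.linearIndependent.map' (X.comap j).subtype (Submodule.ker_subtype _)
    have h2 := h1.fintype_card_le_finrank
    simpa using h2
  refine ⟨r, fun i => j (b i).1, hrm, ?_⟩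
  apply le_antisymm
  · intro x hx
    obtain ⟨y, rfl⟩ := hXj hx
    have hy : y ∈ X.comap j := hx
    have h1 : (⟨y, hy⟩ : X.comap j) = ∑ i, b.repr ⟨y, hy⟩ i • b i := (b.sum_repr _).symm
    have h2 : y = ∑ i, b.repr ⟨y, hy⟩ i • (b i).1 := by
      have := congrArg (X.comap j).subtype h1
      rw [map_sum] at this
      simpa using this
    rw [h2, map_sum]
    refine Submodule.sum_mem _ fun i _ => ?_
    rw [map_smul]
    exact Submodule.smul_mem _ _ (Submodule.subset_span ⟨i, rfl⟩)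
  · rw [Submodule.span_le]
    rintro _ ⟨i, rfl⟩
    exact (b i).2

/-- the submodule generated by finitely many elements is compact -/
theorem isCompact_span {m r : ℕ} (x : Fin r → (Fin m → ℚ_[p])) :
    IsCompact ((Submodule.span ℤ_[p] (Set.range x) : Submodule ℤ_[p] (Fin m → ℚ_[p])) :
      Set (Fin m → ℚ_[p])) := by
  let f : (Fin r → ℤ_[p]) → (Fin m → ℚ_[p]) := fun c => ∑ i, (c i : ℚ_[p]) • x i
  have hf : Continuous f := by
    apply continuous_finsetSum
    intro i _
    have h0 : Continuous fun c : Fin r → ℤ_[p] => (c i : ℚ_[p]) :=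
      continuous_subtype_val.comp (continuous_apply i)
    exact h0.smul (continuous_const (y := x i))
  have h1 : ((Submodule.span ℤ_[p] (Set.range x) : Submodule ℤ_[p] (Fin m → ℚ_[p])) :
      Set (Fin m → ℚ_[p])) = Set.range f := by
    ext y
    rw [SetLike.mem_coe, Submodule.mem_span_range_iff_exists_fun]
    constructor
    · rintro ⟨c, hc⟩
      exact ⟨c, hc⟩
    · rintro ⟨c, hc⟩
      exact ⟨c, hc⟩
  rw [h1]
  exact isCompact_range hf

theorem card_quot {m r : ℕ} (x : Fin r → (Fin m → ℚ_[p])) :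
    ∃ S : Finset (Fin m → ℚ_[p]), S.card ≤ p ^ r ∧
      ∀ y ∈ Submodule.span ℤ_[p] (Set.range x), ∃ s ∈ S,
        ∃ z ∈ Submodule.span ℤ_[p] (Set.range x), y - s = (p : ℤ_[p]) • z := by
  classical
  let f : (Fin r → Fin p) → (Fin m → ℚ_[p]) := fun c => ∑ i, (((c i : ℕ) : ℤ_[p])) • x i
  refine ⟨Finset.univ.image f, ?_, ?_⟩
  · refine Finset.card_image_le.trans ?_
    simp
  · intro y hy
    rw [Submodule.mem_span_range_iff_exists_fun] at hy
    obtain ⟨c, rfl⟩ := hy
    have h1 : ∀ i, ∃ d : ℤ_[p], c i = ((PadicInt.zmodRepr (c i) : ℕ) : ℤ_[p]) + p * d := by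
      intro i
      have h2 := PadicInt.sub_zmodRepr_mem (c i)
      rw [PadicInt.maximalIdeal_eq_span_p, Ideal.mem_span_singleton] at h2
      obtain ⟨d, hd⟩ := h2
      exact ⟨d, by rw [← hd]; ring⟩
    choose d hd using h1
    refine ⟨f fun i => ⟨PadicInt.zmodRepr (c i), PadicInt.zmodRepr_lt_p (c i)⟩,
      Finset.mem_image_of_mem _ (Finset.mem_univ _), ∑ i, d i • x i, ?_, ?_⟩
    · exact Submodule.sum_mem _ fun i _ =>
        Submodule.smul_mem _ _ (Submodule.subset_span ⟨i, rfl⟩)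
    · rw [Finset.smul_sum, ← Finset.sum_sub_distrib]
      apply Finset.sum_congr rfl
      intro i _
      rw [smul_smul, ← sub_smul]
      congr 1
      have := hd i
      show c i - ((PadicInt.zmodRepr (c i) : ℕ) : ℤ_[p]) = p * d i
      rw [sub_eq_iff_eq_add']
      exact this

/-- **Faltings' lemma.** -/
theorem faltings {Γ : Type*} [Group Γ] [TopologicalSpace Γ] [IsTopologicalGroup Γ]
    [CompactSpace Γ] {D : Type*} [Ring D] [Algebra ℚ_[p] D] [FiniteDimensional ℚ_[p] D]
    [TopologicalSpace D] [IsTopologicalRing D] [ContinuousSMul ℚ_[p] D] [T2Space D]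
    (R : Γ →* D) (hR : Continuous R) (T : Set Γ)
    (hT : ∀ U : Subgroup Γ, IsOpen (U : Set Γ) → U.Normal →
      U.index ≤ p ^ Module.finrank ℚ_[p] D → ∀ g, ∃ s ∈ T, s⁻¹ * g ∈ U)
    {D' : Type*} [AddCommGroup D'] [Module ℚ_[p] D'] (ℓ : D →ₗ[ℚ_[p]] D')
    (hℓ : ∀ s ∈ T, ℓ (R s) = 0) (g : Γ) : ℓ (R g) = 0 := by
  classical
  set m := Module.finrank ℚ_[p] D with hm
  let φ : D ≃ₗ[ℚ_[p]] (Fin m → ℚ_[p]) := (Module.finBasis ℚ_[p] D).equivFun
  have hφ : Continuous φ := LinearMap.continuous_of_finiteDimensional φ.toLinearMap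
  let ψ : Γ → (Fin m → ℚ_[p]) := fun g => φ (R g)
  have hψ : Continuous ψ := hφ.comp hR
  -- boundedness
  obtain ⟨C, hC⟩ := (isCompact_range hψ).isBounded.exists_norm_le
  have hp1 : (1 : ℝ) < p := by exact_mod_cast (Fact.out : p.Prime).one_lt
  obtain ⟨k, hk⟩ := pow_unbounded_of_one_lt C hp1
  set X : Submodule ℤ_[p] (Fin m → ℚ_[p]) := Submodule.span ℤ_[p] (Set.range ψ) with hX
  have hψX : ∀ g, ψ g ∈ X := fun g => Submodule.subset_span ⟨g, rfl⟩
  have hpk : ‖(p : ℚ_[p]) ^ k‖ = ((p : ℝ) ^ k)⁻¹ := by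
    rw [norm_pow, Padic.norm_p, inv_pow]
  have hbd : ∀ x ∈ X, ∀ i, ‖(p : ℚ_[p]) ^ k * x i‖ ≤ 1 := by
    intro x hx i
    induction hx using Submodule.span_induction with
    | mem x hx =>
      obtain ⟨g, rfl⟩ := hx
      rw [norm_mul, hpk]
      have h1 : ‖ψ g i‖ ≤ C := (norm_le_pi_norm (ψ g) i).trans (hC _ ⟨g, rfl⟩)
      have h2 : (0 : ℝ) < (p : ℝ) ^ k := by positivity
      rw [inv_mul_le_iff₀ h2, mul_one]
      exact h1.trans hk.le
    | zero => simp
    | add x y _ _ hx hy =>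
      rw [Pi.add_apply, mul_add]
      exact (Padic.nonarchimedean _ _).trans (max_le hx hy)
    | smul c x _ hx =>
      have h1 : (c • x) i = (c : ℚ_[p]) * x i := by
        rw [Pi.smul_apply, Algebra.smul_def]
        rfl
      rw [h1]
      have h2 : (p : ℚ_[p]) ^ k * ((c : ℚ_[p]) * x i) = (c : ℚ_[p]) * ((p : ℚ_[p]) ^ k * x i) := by
        ring
      rw [h2, norm_mul]
      exact mul_le_one₀ (PadicInt.norm_le_one c) (norm_nonneg _) hx
  obtain ⟨r, x, hrm, hXx⟩ := exists_gens X k hbd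
  set PX : Submodule ℤ_[p] (Fin m → ℚ_[p]) :=
    X.map (LinearMap.lsmul ℤ_[p] (Fin m → ℚ_[p]) (p : ℤ_[p])) with hPX
  have hPXmem : ∀ y, y ∈ PX ↔ ∃ z ∈ X, (p : ℤ_[p]) • z = y := fun y => Submodule.mem_map
  have hXcomp : IsCompact (X : Set (Fin m → ℚ_[p])) := by
    rw [hXx]; exact isCompact_span x
  have hPXclosed : IsClosed (PX : Set (Fin m → ℚ_[p])) := by
    have h1 : (PX : Set (Fin m → ℚ_[p])) =
        (fun z : Fin m → ℚ_[p] => (p : ℚ_[p]) • z) '' (X : Set (Fin m → ℚ_[p])) := by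
      ext y
      rw [SetLike.mem_coe, hPXmem]
      constructor
      · rintro ⟨z, hz, rfl⟩
        refine ⟨z, hz, ?_⟩
        ext i
        show (p : ℚ_[p]) * z i = ((p : ℤ_[p]) • z) i
        rw [Pi.smul_apply, Algebra.smul_def]
        simp
      · rintro ⟨z, hz, rfl⟩
        refine ⟨z, hz, ?_⟩
        ext i
        show ((p : ℤ_[p]) • z) i = (p : ℚ_[p]) * z i
        rw [Pi.smul_apply, Algebra.smul_def]
        simp
    rw [h1]
    exact (hXcomp.image (continuous_const_smul _)).isClosed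
  -- multiplication operators
  let Λ : Γ → Γ → (Fin m → ℚ_[p]) →ₗ[ℚ_[p]] (Fin m → ℚ_[p]) := fun a b =>
    φ.toLinearMap ∘ₗ (LinearMap.mulLeft ℚ_[p] (R a) ∘ₗ LinearMap.mulRight ℚ_[p] (R b)) ∘ₗ
      φ.symm.toLinearMap
  have hΛψ : ∀ a b h, Λ a b (ψ h) = ψ (a * h * b) := by
    intro a b h
    show φ (R a * (φ.symm (φ (R h)) * R b)) = φ (R (a * h * b))
    rw [LinearEquiv.symm_apply_apply, ← map_mul R, ← map_mul R, mul_assoc]
  have hΛsmul : ∀ a b (c : ℤ_[p]) y, Λ a b (c • y) = c • Λ a b y := by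
    intro a b c y
    have h1 : ∀ z : Fin m → ℚ_[p], c • z = (c : ℚ_[p]) • z := by
      intro z
      ext i
      rw [Pi.smul_apply, Pi.smul_apply, Algebra.smul_def]
      rfl
    rw [h1, h1, map_smul]
  have hΛX : ∀ a b, ∀ y ∈ X, Λ a b y ∈ X := by
    intro a b y hy
    induction hy using Submodule.span_induction with
    | mem y hy =>
      obtain ⟨h, rfl⟩ := hy
      rw [hΛψ]
      exact hψX _
    | zero => rw [map_zero]; exact X.zero_mem
    | add y z _ _ hy hz => rw [map_add]; exact X.add_mem hy hz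
    | smul c y _ hy => rw [hΛsmul]; exact X.smul_mem c hy
  have hΛPX : ∀ a b, ∀ y ∈ PX, Λ a b y ∈ PX := by
    intro a b y hy
    obtain ⟨z, hz, rfl⟩ := (hPXmem y).mp hy
    rw [hΛsmul]
    exact (hPXmem _).mpr ⟨_, hΛX a b z hz, rfl⟩
  -- the congruence subgroup
  let U : Subgroup Γ :=
    { carrier := {u | ∀ a b, ψ (a * u * b) - ψ (a * b) ∈ PX}
      one_mem' := by intro a b; simp
      mul_mem' := by
        intro u v hu hv a b
        have h1 := hu a (v * b)
        have h2 := hv a b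
        have h3 : ψ (a * (u * v) * b) - ψ (a * b) =
            (ψ (a * u * (v * b)) - ψ (a * (v * b))) + (ψ (a * v * b) - ψ (a * b)) := by
          rw [mul_assoc a v b, show a * (u * v) * b = a * u * (v * b) by group]
          abel
        rw [h3]
        exact PX.add_mem h1 h2
      inv_mem' := by
        intro u hu a b
        have h1 := hu (a * u⁻¹) b
        have h2 : ψ (a * u⁻¹ * b) - ψ (a * b) = -(ψ (a * u⁻¹ * u * b) - ψ (a * u⁻¹ * b)) := by
          rw [inv_mul_cancel_right]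
          abel
        rw [h2]
        exact PX.neg_mem h1 }
  have hUnormal : U.Normal := ⟨by
    intro u hu g a b
    have h1 := hu (a * g) (g⁻¹ * b)
    have h2 : a * g * u * (g⁻¹ * b) = a * (g * u * g⁻¹) * b := by group
    have h3 : a * g * (g⁻¹ * b) = a * b := by group
    rw [h2, h3] at h1
    exact h1⟩
  have hUclosed : IsClosed (U : Set Γ) := by
    have h1 : (U : Set Γ) = ⋂ a, ⋂ b, (fun u => ψ (a * u * b) - ψ (a * b)) ⁻¹' (PX : Set _) := by
      ext u
      simp only [Set.mem_iInter, Set.mem_preimage]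
      rfl
    rw [h1]
    refine isClosed_iInter fun a => isClosed_iInter fun b => hPXclosed.preimage ?_
    exact (hψ.comp ((continuous_const.mul continuous_id).mul continuous_const)).sub
      continuous_const
  have hkey : ∀ g1 g2, ψ g2 - ψ g1 ∈ PX → g1⁻¹ * g2 ∈ U := by
    intro g1 g2 h a b
    have h1 := hΛPX (a * g1⁻¹) b _ h
    rw [map_sub, hΛψ, hΛψ] at h1
    have h2 : a * g1⁻¹ * g2 * b = a * (g1⁻¹ * g2) * b := by group
    have h3 : a * g1⁻¹ * g1 * b = a * b := by group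
    rw [h2, h3] at h1
    exact h1
  obtain ⟨S, hScard, hS⟩ := card_quot x
  rw [← hXx] at hS
  have hS' : ∀ g, ∃ s ∈ S, ψ g - s ∈ PX := by
    intro g
    obtain ⟨s, hs, z, hz, he⟩ := hS (ψ g) (hψX g)
    exact ⟨s, hs, (hPXmem _).mpr ⟨z, hz, he.symm⟩⟩
  choose s hsS hsP using hS'
  let f : Γ ⧸ U → S := fun q => ⟨s q.out, hsS _⟩
  have hf : Function.Injective f := by
    intro q1 q2 h
    have h1 : s q1.out = s q2.out := congrArg Subtype.val h
    have h2 : ψ q2.out - ψ q1.out ∈ PX := by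
      have h3 : ψ q2.out - ψ q1.out = (ψ q2.out - s q2.out) - (ψ q1.out - s q1.out) := by
        rw [h1]; abel
      rw [h3]
      exact PX.sub_mem (hsP _) (hsP _)
    have h3 := hkey _ _ h2
    rw [← QuotientGroup.eq, QuotientGroup.out_eq', QuotientGroup.out_eq'] at h3
    exact h3
  have hfin : Finite (Γ ⧸ U) := Finite.of_injective f hf
  have hindex : U.index ≤ p ^ m := by
    have h1 : Nat.card (Γ ⧸ U) ≤ Nat.card S := Nat.card_le_card_of_injective f hf
    rw [Nat.card_eq_fintype_card (α := S), Fintype.card_coe] at h1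
    exact h1.trans (hScard.trans (Nat.pow_le_pow_right (Fact.out : p.Prime).pos hrm))
  have hUfi : U.FiniteIndex := Subgroup.finiteIndex_of_finite_quotient
  have hUopen : IsOpen (U : Set Γ) := Subgroup.isOpen_of_isClosed_of_finiteIndex U hUclosed
  have hTU := hT U hUopen hUnormal hindex
  -- Nakayama
  set Y : Submodule ℤ_[p] (Fin m → ℚ_[p]) := Submodule.span ℤ_[p] (ψ '' T) with hY
  have hXY : X ≤ Y := by
    apply Submodule.le_of_le_smul_of_le_jacobson_bot (I := IsLocalRing.maximalIdeal ℤ_[p])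
    · rw [hXx]
      exact Submodule.fg_span (Set.finite_range _)
    · exact IsLocalRing.maximalIdeal_le_jacobson _
    · rw [hX, Submodule.span_le]
      rintro _ ⟨g, rfl⟩
      obtain ⟨t, ht, hg⟩ := hTU g
      have h1 := hg t 1
      have h2 : ψ (t * (t⁻¹ * g) * 1) - ψ (t * 1) = ψ g - ψ t := by
        rw [mul_one, mul_one, mul_inv_cancel_left]
      rw [h2] at h1
      obtain ⟨z, hz, he⟩ := (hPXmem _).mp h1
      have h3 : ψ g = ψ t + (p : ℤ_[p]) • z := by rw [he]; abel
      rw [SetLike.mem_coe, h3]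
      refine Submodule.add_mem_sup (Submodule.subset_span ⟨t, ht, rfl⟩) ?_
      refine Submodule.smul_mem_smul ?_ hz
      rw [PadicInt.maximalIdeal_eq_span_p]
      exact Ideal.mem_span_singleton_self _
  -- conclusion
  have hfinal : ∀ y ∈ Y, ℓ (φ.symm y) = 0 := by
    intro y hy
    induction hy using Submodule.span_induction with
    | mem y hy =>
      obtain ⟨t, ht, rfl⟩ := hy
      show ℓ (φ.symm (φ (R t))) = 0
      rw [LinearEquiv.symm_apply_apply]
      exact hℓ t ht
    | zero => simp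
    | add y z _ _ hy hz => rw [map_add, map_add, hy, hz, add_zero]
    | smul c y _ hy =>
      have h1 : c • y = (c : ℚ_[p]) • y := by
        ext i
        rw [Pi.smul_apply, Pi.smul_apply, Algebra.smul_def]
        rfl
      rw [h1, map_smul, map_smul, hy, smul_zero]
  have h4 := hfinal (ψ g) (hXY (hψX g))
  rwa [LinearEquiv.symm_apply_apply] at h4

end Pool.Agent.FC
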