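import Mathlib
import Pool.Agent.helper6.GO.Main
import Pool.Agent.helper85.FCR.Nak

/-!
# The finite criterion for a common eigenvalue
-/

namespace Pool.Agent.FC

open Matrix Polynomial Pool.Agent.GO

section kp

variable {E : Type*} [Field E] {κ : Type*} [Fintype κ] [DecidableEq κ]

/-- Kronecker power -/
def kp (m : ℕ) (X : Matrix κ κ E) : Matrix (Fin m → κ) (Fin m → κ) E :=
  Matrix.of fun p q => ∏ k, X (p k) (q k)

theorem kp_mul (m : ℕ) (X Y : Matrix κ κ E) : kp m (X * Y) = kp m X * kp m Y := by
  ext p q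
  rw [Matrix.mul_apply]
  simp only [kp, Matrix.of_apply, Matrix.mul_apply]
  rw [Finset.prod_univ_sum]
  simp only [Fintype.piFinset_univ]
  apply Finset.sum_congr rfl
  intro r _
  rw [Finset.prod_mul_distrib]

theorem kp_one (m : ℕ) : kp m (1 : Matrix κ κ E) = 1 := by
  ext p q
  simp only [kp, Matrix.of_apply, Matrix.one_apply]
  by_cases h : p = q
  · subst h; simp
  · rw [if_neg h]
    obtain ⟨k, hk⟩ := Function.ne_iff.mp h
    exact Finset.prod_eq_zero (Finset.mem_univ k) (if_neg hk)

variable {Γ : Type*} [Group Γ]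

/-- Kronecker power of a representation -/
def kpHom (m : ℕ) (W : Γ →* Matrix κ κ E) : Γ →* Matrix (Fin m → κ) (Fin m → κ) E where
  toFun g := kp m (W g)
  map_one' := by rw [map_one, kp_one]
  map_mul' g h := by rw [map_mul, kp_mul]

/-- a determinant whose entries are linear forms in `X` is a linear form in the Kronecker power -/
theorem exists_functional {ν : Type*} [Fintype ν] [DecidableEq ν] {m : ℕ} (e : Fin m ≃ ν)
    (C : ν → ν → κ × κ → E) : ∃ ℓ : Matrix (Fin m → κ) (Fin m → κ) E →ₗ[E] E,
    ∀ X : Matrix κ κ E, ℓ (kp m X) =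
      (Matrix.of fun i j => ∑ ab : κ × κ, C i j ab * X ab.1 ab.2 : Matrix ν ν E).det := by
  refine ⟨{ toFun := fun Y => ∑ σ : Equiv.Perm ν, ((Equiv.Perm.sign σ : ℤ) : E) *
              ∑ f : Fin m → κ × κ, (∏ k, C (σ (e k)) (e k) (f k)) *
                Y (fun k => (f k).1) (fun k => (f k).2)
            map_add' := by
              intro Y Z
              simp only [Matrix.add_apply, mul_add, Finset.sum_add_distrib]
            map_smul' := by
              intro c Y
              simp only [Matrix.smul_apply, smul_eq_mul, RingHom.id_apply, Finset.mul_sum]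
              apply Finset.sum_congr rfl
              intro σ _
              apply Finset.sum_congr rfl
              intro f _
              ring }, ?_⟩
  intro X
  rw [Matrix.det_apply']
  show ∑ σ : Equiv.Perm ν, _ = _
  apply Finset.sum_congr rfl
  intro σ _
  congr 1
  rw [← Equiv.prod_comp e]
  simp only [Matrix.of_apply, kp]
  rw [Finset.prod_univ_sum]
  simp only [Fintype.piFinset_univ]
  apply Finset.sum_congr rfl
  intro f _
  rw [Finset.prod_mul_distrib]

end kp

section syl

variable {E : Type*} [Field E] {ι : Type*} [Fintype ι] [DecidableEq ι] {Γ : Type*} [Group Γ]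

theorem exists_functional_syl (V : Γ →* Matrix ι ι E) (ρ : Γ →* Matrix (Fin 2) (Fin 2) E)
    {m : ℕ} (hm : m = 2 * Fintype.card ι) :
    ∃ ℓ : Matrix (Fin m → ι ⊕ Fin 2) (Fin m → ι ⊕ Fin 2) E →ₗ[E] E,
      ∀ g, ℓ (kpHom m (dsum V ρ) g) = (syl (V g) (ρ g)).det := by
  have hcard : Fintype.card (ι × Fin 2) = m := by
    rw [Fintype.card_prod, Fintype.card_fin, hm, mul_comm]
  let e : Fin m ≃ ι × Fin 2 := (Fintype.equivFinOfCardEq hcard).symm
  obtain ⟨ℓ, hℓ⟩ := exists_functional (E := E) (κ := ι ⊕ Fin 2) e (fun p q ab =>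
    (if ab = (Sum.inl p.1, Sum.inl q.1) then (if p.2 = q.2 then 1 else 0) else 0) -
      (if ab = (Sum.inr q.2, Sum.inr p.2) then (if p.1 = q.1 then 1 else 0) else 0))
  refine ⟨ℓ, fun g => ?_⟩
  show ℓ (kp m (dsum V ρ g)) = _
  rw [hℓ]
  congr 1
  ext p q
  simp only [Matrix.of_apply, sub_mul, ite_mul, zero_mul, one_mul, Finset.sum_sub_distrib, syl,
    Finset.sum_ite_eq', Finset.mem_univ, if_true, mul_ite, mul_one, mul_zero]
  rfl

end syl

section descent

variable {E K : Type*} [Field E] [Field K] [Algebra E K] {ι : Type*} [Fintype ι] [DecidableEq ι]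
  {Γ : Type*} [Group Γ]

/-- extension of scalars -/
def extS (K : Type*) [Field K] [Algebra E K] (V : Γ →* Matrix ι ι E) : Γ →* Matrix ι ι K :=
  ((algebraMap E K).mapMatrix : Matrix ι ι E →+* Matrix ι ι K).toMonoidHom.comp V

omit [DecidableEq ι] in
theorem extS_apply [DecidableEq ι] (V : Γ →* Matrix ι ι E) (g : Γ) :
    extS K V g = (V g).map (algebraMap E K) := rfl

theorem mem_span_of_mem_alg (V : Γ →* Matrix ι ι E) {f : Γ → K} (hf : f ∈ alg (extS K V)) :
    f ∈ Submodule.span K {F : Γ → K | ∃ a ∈ alg V, F = fun g => algebraMap E K (a g)} := by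
  have h1 : f ∈ Subalgebra.toSubmodule (alg (extS K V)) := hf
  unfold alg at h1
  rw [Algebra.adjoin_eq_span] at h1
  refine Submodule.span_mono ?_ h1
  let M : Submonoid (Γ → K) :=
    { carrier := {F : Γ → K | ∃ a ∈ alg V, F = fun g => algebraMap E K (a g)}
      one_mem' := ⟨1, Subalgebra.one_mem _, by ext g; simp⟩
      mul_mem' := by
        rintro _ _ ⟨a, ha, rfl⟩ ⟨b, hb, rfl⟩
        exact ⟨a * b, Subalgebra.mul_mem _ ha hb, by ext g; simp⟩ }
  have h2 : Submonoid.closure (Set.range (fun p : ι × ι => fun g => extS K V g p.1 p.2) ∪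
      Set.range (fun p : ι × ι => fun g => extS K V g⁻¹ p.1 p.2)) ≤ M := by
    rw [Submonoid.closure_le]
    rintro _ (⟨q, rfl⟩ | ⟨q, rfl⟩)
    · exact ⟨_, coef_mem V q.1 q.2, rfl⟩
    · exact ⟨_, coefInv_mem V q.1 q.2, rfl⟩
  exact h2

theorem descent (V : Γ →* Matrix ι ι E) (f : Γ → E)
    (hf : (fun g => algebraMap E K (f g)) ∈ alg (extS K V)) : f ∈ alg V := by
  obtain ⟨π, hπ⟩ := LinearMap.exists_leftInverse_of_injective (Algebra.linearMap E K)
    (LinearMap.ker_eq_bot.mpr (algebraMap E K).injective)
  have hπ' : ∀ x : E, π (algebraMap E K x) = x := fun x => by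
    have := LinearMap.congr_fun hπ x
    exact this
  have hmem : ∀ F ∈ Submodule.span K {F : Γ → K | ∃ a ∈ alg V, F = fun g => algebraMap E K (a g)},
      ∀ c : K, (fun g => π (c * F g)) ∈ alg V := by
    intro F hF
    induction hF using Submodule.span_induction with
    | mem F hF =>
      obtain ⟨a, ha, rfl⟩ := hF
      intro c
      have h1 : (fun g => π (c * algebraMap E K (a g))) = (π c) • a := by
        ext g
        rw [mul_comm, ← Algebra.smul_def, map_smul, smul_eq_mul, Pi.smul_apply, smul_eq_mul,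
          mul_comm]
      rw [h1]
      exact Subalgebra.smul_mem _ ha _
    | zero =>
      intro c
      have h1 : (fun g : Γ => π (c * (0 : Γ → K) g)) = 0 := by ext g; simp
      rw [h1]
      exact Subalgebra.zero_mem _
    | add F G _ _ hF hG =>
      intro c
      have h1 : (fun g : Γ => π (c * (F + G) g)) =
          (fun g => π (c * F g)) + (fun g => π (c * G g)) := by
        ext g; simp [mul_add]
      rw [h1]
      exact Subalgebra.add_mem _ (hF c) (hG c)
    | smul d F _ hF =>
      intro c
      have h1 : (fun g : Γ => π (c * (d • F) g)) = (fun g => π ((c * d) * F g)) := by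
        ext g; simp [mul_assoc]
      rw [h1]
      exact hF _
  have h2 := hmem _ (mem_span_of_mem_alg V hf) 1
  simpa [hπ'] using h2

end descent

section main

variable {Γ : Type*} [Group Γ]

theorem irred_of_span {E : Type*} [Field E] (ρ : Γ →* Matrix (Fin 2) (Fin 2) E)
    (h : Submodule.span E (Set.range ρ) = ⊤) : Irred (fun g => ρ g) := by
  refine ⟨⟨0⟩, fun U hU => ?_⟩
  by_cases hU0 : U = ⊥
  · exact Or.inl hU0
  right
  obtain ⟨u, hu, hu0⟩ := Submodule.exists_mem_ne_zero_of_ne_bot hU0
  have h1 : ∀ M : Matrix (Fin 2) (Fin 2) E, M *ᵥ u ∈ U := by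
    intro M
    have hM : M ∈ Submodule.span E (Set.range ρ) := by rw [h]; trivial
    induction hM using Submodule.span_induction with
    | mem M hM =>
      obtain ⟨g, rfl⟩ := hM
      exact hU g u hu
    | zero => simp
    | add M N _ _ hM hN => rw [Matrix.add_mulVec]; exact U.add_mem hM hN
    | smul c M _ hM => rw [Matrix.smul_mulVec]; exact U.smul_mem c hM
  obtain ⟨i, hi⟩ := Function.ne_iff.mp hu0
  rw [eq_top_iff]
  rintro w -
  have h2 : w = (Matrix.of fun a b => if b = i then w a * (u i)⁻¹ else 0 :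
      Matrix (Fin 2) (Fin 2) E) *ᵥ u := by
    ext a
    simp only [Matrix.mulVec, dotProduct, Matrix.of_apply, ite_mul, zero_mul, Finset.sum_ite_eq',
      Finset.mem_univ, if_true]
    have hi' : u i ≠ 0 := hi
    field_simp
  rw [h2]
  exact h1 _

/-- coefficients of `ρ` from a common eigenvalue at every element, over any field -/
theorem coef_of_det {E : Type*} [Field E] [CharZero E] {ι : Type*} [Fintype ι] [DecidableEq ι]
    (V : Γ →* Matrix ι ι E) (ρ : Γ →* Matrix (Fin 2) (Fin 2) E)
    (hspan : Submodule.span E (Set.range ρ) = ⊤) (h : ∀ g, (syl (V g) (ρ g)).det = 0)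
    (i j : Fin 2) : (fun g => ρ g i j) ∈ alg V := by
  let K := AlgebraicClosure E
  have hK : CharZero K := charZero_of_injective_algebraMap (algebraMap E K).injective
  apply descent (K := K) V
  have hspanK : Submodule.span K (Set.range (extS K ρ)) = ⊤ := by
    rw [eq_top_iff]
    rintro M -
    have h1 : ∀ N : Matrix (Fin 2) (Fin 2) E,
        N.map (algebraMap E K) ∈ Submodule.span K (Set.range (extS K ρ)) := by
      intro N
      have hN : N ∈ Submodule.span E (Set.range ρ) := by rw [hspan]; trivial
      induction hN using Submodule.span_induction with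
      | mem N hN =>
        obtain ⟨g, rfl⟩ := hN
        exact Submodule.subset_span ⟨g, rfl⟩
      | zero => rw [Matrix.map_zero _ (map_zero _)]; exact Submodule.zero_mem _
      | add N N' _ _ hN hN' =>
        rw [Matrix.map_add _ (map_add _)]
        exact Submodule.add_mem _ hN hN'
      | smul c N _ hN =>
        have h2 : (c • N).map (algebraMap E K) = (algebraMap E K c) • N.map (algebraMap E K) := by
          ext a b; simp
        rw [h2]
        exact Submodule.smul_mem _ _ hN
    have h3 : M = ∑ a, ∑ b, M a b • (Matrix.single a b (1 : E)).map (algebraMap E K) := by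
      ext a b
      simp [Matrix.sum_apply, Matrix.single_apply]
      fin_cases a <;> fin_cases b <;> simp
    rw [h3]
    exact Submodule.sum_mem _ fun a _ => Submodule.sum_mem _ fun b _ =>
      Submodule.smul_mem _ _ (h1 _)
  refine coef_mem_alg (extS K V) (extS K ρ) hspanK (fun g => ?_) i j
  apply common_of_det_syl
  have h1 := map_det_syl (algebraMap E K) (V g) (ρ g)
  rw [h g, map_zero] at h1
  exact h1.symm

theorem det_syl_of_not_coprime {E : Type*} [Field E] {ι : Type*} [Fintype ι] [DecidableEq ι]
    (X : Matrix ι ι E) (Y : Matrix (Fin 2) (Fin 2) E)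
    (h : ¬ IsCoprime X.charpoly Y.charpoly) : (syl X Y).det = 0 := by
  let K := AlgebraicClosure E
  obtain ⟨μ, h1, h2⟩ := common_root_transfer (algebraMap E K) (Matrix.charpoly_monic X).ne_zero h
  rw [← Matrix.charpoly_map] at h1 h2
  have h3 : (syl (X.map (algebraMap E K)) (Y.map (algebraMap E K))).det = 0 :=
    det_syl_of_common ⟨μ, h1, h2⟩
  rw [← map_det_syl] at h3
  exact (map_eq_zero_iff _ (algebraMap E K).injective).mp h3

end main

end Pool.Agent.FC
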