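import Mathlib
import Pool.Agent.helper85.FCR.Fin

/-!
# The finite criterion
-/

namespace Pool.Agent.FC

open Matrix Polynomial Pool.Agent.GO

/-- A set `Z` of elements which meets every coset of every open normal subgroup of index at most
`p ^ ([E : ℚ_p] (n+2)^(4n))` decides. -/
theorem criterion_set {p : ℕ} [Fact p.Prime] {Γ : Type*} [Group Γ] [TopologicalSpace Γ]
    [IsTopologicalGroup Γ] [CompactSpace Γ] {n e : ℕ} {E : Type*} [Field E] [Algebra ℚ_[p] E]
    [FiniteDimensional ℚ_[p] E] [TopologicalSpace E] [IsTopologicalRing E]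
    [ContinuousSMul ℚ_[p] E] [T2Space E] (he : Module.finrank ℚ_[p] E ≤ e)
    (V : Γ →* Matrix (Fin n) (Fin n) E) (ρ : Γ →* Matrix (Fin 2) (Fin 2) E)
    (hV : Continuous V) (hρ : Continuous ρ) (Z : Set Γ)
    (hZ : ∀ U : Subgroup Γ, IsOpen (U : Set Γ) → U.Normal →
      U.index ≤ p ^ (e * (n + 2) ^ (4 * n)) → ∀ g, ∃ s ∈ Z, s⁻¹ * g ∈ U)
    (h : ∀ s ∈ Z, (syl (V s) (ρ s)).det = 0) (g : Γ) : (syl (V g) (ρ g)).det = 0 := by
  set m := 2 * n with hm
  obtain ⟨ℓ, hℓ⟩ := exists_functional_syl V ρ (m := m) (by rw [Fintype.card_fin])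
  have hR : Continuous (kpHom m (dsum V ρ)) := by
    apply continuous_matrix
    intro a b
    show Continuous fun g => ∏ k, dsum V ρ g (a k) (b k)
    apply continuous_finsetProd
    intro k _
    show Continuous fun g => Matrix.fromBlocks (V g) 0 0 (ρ g) (a k) (b k)
    rcases a k with i | i <;> rcases b k with j | j
    · exact hV.matrix_elem i j
    · exact continuous_const
    · exact continuous_const
    · exact hρ.matrix_elem i j
  have hdim : Module.finrank ℚ_[p] (Matrix (Fin m → Fin n ⊕ Fin 2) (Fin m → Fin n ⊕ Fin 2) E) ≤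
      e * (n + 2) ^ (4 * n) := by
    rw [Module.finrank_matrix]
    simp only [Fintype.card_pi, Fintype.card_sum, Fintype.card_fin, Finset.prod_const,
      Finset.card_univ]
    calc (n + 2) ^ m * (n + 2) ^ m * Module.finrank ℚ_[p] E
        ≤ (n + 2) ^ m * (n + 2) ^ m * e := Nat.mul_le_mul_left _ he
      _ = e * (n + 2) ^ (4 * n) := by rw [hm, ← pow_add]; ring_nf
  have h1 := faltings (p := p) (kpHom m (dsum V ρ)) hR Z
    (fun U hU1 hU2 hU3 => hZ U hU1 hU2
      (hU3.trans (Nat.pow_le_pow_right (Fact.out : p.Prime).pos hdim)))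
    (ℓ.restrictScalars ℚ_[p]) (fun s hs => by
      show ℓ _ = 0
      rw [hℓ]
      exact h s hs) g
  rw [← hℓ]
  exact h1

/-- existence of the finite set of places -/
theorem exists_finite {Γ : Type*} [Group Γ] [TopologicalSpace Γ] [IsTopologicalGroup Γ]
    [CompactSpace Γ] {Place : Type*} (frob : Place → Set Γ) (S : Set Place)
    (hS : Dense (⋃ v ∈ S, frob v)) (B : ℕ)
    (hfin : {U : Subgroup Γ | IsOpen (U : Set Γ) ∧ U.Normal ∧ U.index ≤ B}.Finite) :
    ∃ T : Finset Place, (∀ v ∈ T, v ∈ S) ∧ ∀ U : Subgroup Γ, IsOpen (U : Set Γ) → U.Normal →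
      U.index ≤ B → ∀ g, ∃ v ∈ T, ∃ s ∈ frob v, s⁻¹ * g ∈ U := by
  classical
  have h1 : ∀ U : Subgroup Γ, IsOpen (U : Set Γ) → ∃ T : Finset Place, (∀ v ∈ T, v ∈ S) ∧
      ∀ g, ∃ v ∈ T, ∃ s ∈ frob v, s⁻¹ * g ∈ U := by
    intro U hU
    have hfq : Finite (Γ ⧸ U) := Subgroup.quotient_finite_of_isOpen U hU
    have h2 : ∀ q : Γ ⧸ U, ∃ v ∈ S, ∃ s ∈ frob v, s⁻¹ * q.out ∈ U := by
      intro q
      have hopen : IsOpen {x : Γ | x⁻¹ * q.out ∈ U} :=
        hU.preimage (continuous_inv.mul continuous_const)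
      obtain ⟨s, hs1, hs2⟩ := hS.inter_open_nonempty _ hopen ⟨q.out, by simp [U.one_mem]⟩
      simp only [Set.mem_iUnion] at hs2
      obtain ⟨v, hv, hsv⟩ := hs2
      exact ⟨v, hv, s, hsv, hs1⟩
    choose v hvS s hs hU' using h2
    have := Fintype.ofFinite (Γ ⧸ U)
    refine ⟨Finset.univ.image v, ?_, ?_⟩
    · intro w hw
      obtain ⟨q, -, rfl⟩ := Finset.mem_image.mp hw
      exact hvS q
    · intro g
      refine ⟨v (QuotientGroup.mk g), Finset.mem_image_of_mem _ (Finset.mem_univ _),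
        s (QuotientGroup.mk g), hs _, ?_⟩
      have h3 : ((QuotientGroup.mk g : Γ ⧸ U).out)⁻¹ * g ∈ U := by
        rw [← QuotientGroup.eq, QuotientGroup.out_eq']
      have h4 := U.mul_mem (hU' (QuotientGroup.mk g)) h3
      rwa [mul_assoc, mul_inv_cancel_left] at h4
  choose! T hT1 hT2 using h1
  refine ⟨hfin.toFinset.biUnion T, ?_, ?_⟩
  · intro v hv
    obtain ⟨U, hU, hv'⟩ := Finset.mem_biUnion.mp hv
    rw [Set.Finite.mem_toFinset] at hU
    exact hT1 U hU.1 v hv'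
  · intro U hU1 hU2 hU3 g
    obtain ⟨v, hv, h⟩ := hT2 U hU1 g
    exact ⟨v, Finset.mem_biUnion.mpr ⟨U, by rw [Set.Finite.mem_toFinset]; exact ⟨hU1, hU2, hU3⟩,
      hv⟩, h⟩

theorem main {p : ℕ} [Fact p.Prime] {Γ : Type*} [Group Γ] [TopologicalSpace Γ]
    [IsTopologicalGroup Γ] [CompactSpace Γ] {Place : Type*} (frob : Place → Set Γ)
    (S : Set Place) (hS : Dense (⋃ v ∈ S, frob v)) (n e : ℕ)
    (hfin : {U : Subgroup Γ | IsOpen (U : Set Γ) ∧ U.Normal ∧
      U.index ≤ p ^ (e * (n + 2) ^ (4 * n))}.Finite) :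
    ∃ T : Finset Place, (∀ v ∈ T, v ∈ S) ∧
      ∀ (E : Type) [Field E] [Algebra ℚ_[p] E] [FiniteDimensional ℚ_[p] E] [TopologicalSpace E]
        [IsTopologicalRing E] [ContinuousSMul ℚ_[p] E] [T2Space E]
        (V : Γ →* Matrix (Fin n) (Fin n) E) (ρ : Γ →* Matrix (Fin 2) (Fin 2) E),
        Module.finrank ℚ_[p] E ≤ e → Continuous V → Continuous ρ →
        Submodule.span E (Set.range ρ) = ⊤ →
        (∀ v ∈ T, ∀ s ∈ frob v, ¬ IsCoprime (V s).charpoly (ρ s).charpoly) →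
        ∃ a b : ℕ, IsSubquotient (fun g => ρ g) (tens V a b) := by
  obtain ⟨T, hT1, hT2⟩ := exists_finite frob S hS _ hfin
  refine ⟨T, hT1, ?_⟩
  intro E _ _ _ _ _ _ _ V ρ he hV hρ hspan h
  have hchar : CharZero E := charZero_of_injective_algebraMap (algebraMap ℚ_[p] E).injective
  have h1 := criterion_set he V ρ hV hρ (⋃ v ∈ T, frob v) (by
      intro U hU1 hU2 hU3 g
      obtain ⟨v, hv, s, hs, hsg⟩ := hT2 U hU1 hU2 hU3 g
      refine ⟨s, ?_, hsg⟩
      simp only [Set.mem_iUnion]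
      exact ⟨v, hv, hs⟩) (by
      intro s hs
      simp only [Set.mem_iUnion] at hs
      obtain ⟨v, hv, hs⟩ := hs
      exact det_syl_of_not_coprime _ _ (h v hv s hs))
  exact subquot_of_coef V ρ (irred_of_span ρ hspan) fun i j => coef_of_det V ρ hspan h1 i j

end Pool.Agent.FC
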